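import Pool.Agent.Lib.H31S.D

/-! # Extreme points of the subtour polytope have at most `2 n - 3` positive edges -/

set_option autoImplicit false
set_option linter.unusedSectionVars false

namespace H95X

open Finset H31S

variable {V : Type*} [Fintype V] [DecidableEq V]

/-- Rank of an uncrossed family (helper9's lemma). -/
theorem rank_le {E : Type*} [AddCommGroup E] [Module ℝ E] [FiniteDimensional ℝ E] (F : Finset V → Prop)
    (φ : Finset V → E) (h0 : ¬ F ∅)
    (hF : ∀ A B, F A → F B → (A ∩ B).Nonempty → F (A ∩ B) ∧ F (A ∪ B) ∧ φ A + φ B = φ (A ∩ B) + φ (A ∪ B)) :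
    ∀ (m : ℕ) (W : Finset V), W.card = m → W.Nonempty →
      Module.finrank ℝ (Submodule.span ℝ (φ '' {B | F B ∧ B ⊆ W})) + 1 ≤ 2 * W.card := by
  classical
  intro m
  induction m using Nat.strong_induction_on with
  | _ m ih =>
    intro W hW hne
    have hr1 : ∀ v : E, Module.finrank ℝ (Submodule.span ℝ ({v} : Set E)) ≤ 1 := by
      intro v
      have h := finrank_span_finset_le_card (R := ℝ) ({v} : Finset E)
      rw [Finset.coe_singleton, Finset.card_singleton] at h
      exact h
    have hWpos : 0 < W.card := Finset.card_pos.2 hne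
    by_cases hA : (univ.filter (fun A : Finset V => F A ∧ A ⊂ W)).Nonempty
    · obtain ⟨A, hAm, hAmax⟩ := Finset.exists_max_image _ Finset.card hA
      rw [Finset.mem_filter] at hAm
      obtain ⟨-, hFA, hAW⟩ := hAm
      have hAne : A.Nonempty := Finset.nonempty_iff_ne_empty.2 (fun h => h0 (h ▸ hFA))
      have hcA : A.card < W.card := Finset.card_lt_card hAW
      have hcW : (W \ A).card = W.card - A.card := Finset.card_sdiff_of_subset hAW.1
      have hApos : 0 < A.card := Finset.card_pos.2 hAne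
      have hWAne : (W \ A).Nonempty := Finset.card_pos.1 (by omega)
      have hsub : Submodule.span ℝ (φ '' {B | F B ∧ B ⊆ W}) ≤ Submodule.span ℝ ({φ W} : Set E) ⊔
          (Submodule.span ℝ (φ '' {B | F B ∧ B ⊆ A}) ⊔ Submodule.span ℝ (φ '' {B | F B ∧ B ⊆ W \ A})) := by
        rw [Submodule.span_le]
        rintro _ ⟨B, ⟨hB, hBW⟩, rfl⟩
        by_cases h1 : B = W
        · rw [h1]
          exact Submodule.mem_sup_left (Submodule.subset_span rfl)
        by_cases h2 : (B ∩ A).Nonempty
        · obtain ⟨h3, h4, h5⟩ := hF B A hB hFA h2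
          by_cases h6 : B ∪ A = W
          · rw [h6] at h5
            have h7 : φ B = φ W + (φ (B ∩ A) - φ A) := by
              have h8 : φ B = φ B + φ A - φ A := by abel
              rw [h8, h5]
              abel
            rw [h7]
            exact Submodule.add_mem _ (Submodule.mem_sup_left (Submodule.subset_span rfl))
              (Submodule.mem_sup_right (Submodule.mem_sup_left (Submodule.sub_mem _
                (Submodule.subset_span ⟨B ∩ A, ⟨h3, Finset.inter_subset_right⟩, rfl⟩)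
                (Submodule.subset_span ⟨A, ⟨hFA, Finset.Subset.refl A⟩, rfl⟩))))
          · have h7 : B ∪ A ⊂ W := Finset.ssubset_iff_subset_ne.2 ⟨Finset.union_subset hBW hAW.1, h6⟩
            have h8 := hAmax _ (Finset.mem_filter.2 ⟨Finset.mem_univ _, h4, h7⟩)
            have h9 : A = B ∪ A := Finset.eq_of_subset_of_card_le Finset.subset_union_right h8
            exact Submodule.mem_sup_right (Submodule.mem_sup_left
              (Submodule.subset_span ⟨B, ⟨hB, by rw [h9]; exact Finset.subset_union_left⟩, rfl⟩))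
        · rw [Finset.not_nonempty_iff_eq_empty] at h2
          exact Submodule.mem_sup_right (Submodule.mem_sup_right
            (Submodule.subset_span ⟨B, ⟨hB, Finset.subset_sdiff.2 ⟨hBW, Finset.disjoint_iff_inter_eq_empty.2 h2⟩⟩, rfl⟩))
      have h1 := Submodule.finrank_mono hsub
      have h2 := Submodule.finrank_add_le_finrank_add_finrank (Submodule.span ℝ ({φ W} : Set E))
        (Submodule.span ℝ (φ '' {B | F B ∧ B ⊆ A}) ⊔ Submodule.span ℝ (φ '' {B | F B ∧ B ⊆ W \ A}))
      have h3 := Submodule.finrank_add_le_finrank_add_finrank (Submodule.span ℝ (φ '' {B | F B ∧ B ⊆ A}))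
        (Submodule.span ℝ (φ '' {B | F B ∧ B ⊆ W \ A}))
      have h4 := hr1 (φ W)
      have h5 := ih A.card (by omega) A rfl hAne
      have h6 := ih (W \ A).card (by omega) (W \ A) rfl hWAne
      omega
    · have hsub : Submodule.span ℝ (φ '' {B | F B ∧ B ⊆ W}) ≤ Submodule.span ℝ ({φ W} : Set E) := by
        rw [Submodule.span_le]
        rintro _ ⟨B, ⟨hB, hBW⟩, rfl⟩
        by_cases h1 : B = W
        · rw [h1]
          exact Submodule.subset_span rfl
        · exact absurd ⟨B, Finset.mem_filter.2 ⟨Finset.mem_univ _, hB,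
            Finset.ssubset_iff_subset_ne.2 ⟨hBW, h1⟩⟩⟩ hA
      have h1 := Submodule.finrank_mono hsub
      have h4 := hr1 (φ W)
      omega

/-- Points of the subtour polytope with support in the support of `x0`. -/
structure Frac (x0 y : V → V → ℝ) : Prop where
  symm : ∀ u v, y u v = y v u
  nn : ∀ u v, 0 ≤ y u v
  supp : ∀ u v, x0 u v = 0 → y u v = 0
  deg : ∀ v, deg y v = 2
  cut : ∀ S : Finset V, S.Nonempty → S ≠ univ → 2 ≤ cut y S

private theorem cont_cut' (S : Finset V) : Continuous fun p : V → V → ℝ => cut p S := by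
  unfold H31S.cut
  fun_prop

private theorem cont_deg' (v : V) : Continuous fun p : V → V → ℝ => deg p v := by
  unfold H31S.deg
  fun_prop

theorem closed_frac (x0 : V → V → ℝ) : IsClosed {y | Frac x0 y} := by
  have h : {y : V → V → ℝ | Frac x0 y} = (⋂ u, ⋂ v, {p | p u v = p v u}) ∩
      ((⋂ u, ⋂ v, {p | 0 ≤ p u v}) ∩ ((⋂ u, ⋂ v, ⋂ _ : x0 u v = 0, {p | p u v = 0}) ∩
        ((⋂ v, {p | deg p v = 2}) ∩ ⋂ S, ⋂ _ : S.Nonempty, ⋂ _ : S ≠ univ, {p | 2 ≤ H31S.cut p S}))) := by
    ext p
    simp only [Set.mem_ofPred_eq, Set.mem_inter_iff, Set.mem_iInter]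
    exact ⟨fun h => ⟨h.symm, h.nn, h.supp, h.deg, h.cut⟩, fun h => ⟨h.1, h.2.1, h.2.2.1, h.2.2.2.1, h.2.2.2.2⟩⟩
  rw [h]
  refine IsClosed.inter ?_ (IsClosed.inter ?_ (IsClosed.inter ?_ (IsClosed.inter ?_ ?_)))
  · exact isClosed_iInter fun u => isClosed_iInter fun v => isClosed_eq (by fun_prop) (by fun_prop)
  · exact isClosed_iInter fun u => isClosed_iInter fun v => isClosed_le (by fun_prop) (by fun_prop)
  · exact isClosed_iInter fun u => isClosed_iInter fun v => isClosed_iInter fun _ =>
      isClosed_eq (by fun_prop) (by fun_prop)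
  · exact isClosed_iInter fun v => isClosed_eq (cont_deg' v) continuous_const
  · exact isClosed_iInter fun S => isClosed_iInter fun _ => isClosed_iInter fun _ =>
      isClosed_le continuous_const (cont_cut' S)

theorem compact_frac (x0 : V → V → ℝ) : IsCompact {y | Frac x0 y} := by
  have hbox : IsCompact (Set.Icc (fun _ _ => (0 : ℝ)) fun _ _ => (2 : ℝ) : Set (V → V → ℝ)) := isCompact_Icc
  refine hbox.of_isClosed_subset (closed_frac x0) ?_
  intro x hx
  refine ⟨fun u v => hx.nn u v, fun u v => ?_⟩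
  rw [← hx.deg u]
  exact Finset.single_le_sum (f := fun w => x u w) (fun w _ => hx.nn u w) (mem_univ v)

/-- the crossing part -/
def Q (x : V → V → ℝ) (A B : Finset V) : ℝ :=
  ∑ u, ∑ v, if (u ∈ A \ B ∧ v ∈ B \ A) ∨ (u ∈ B \ A ∧ v ∈ A \ B) then x u v else 0

theorem cut_id (x : V → V → ℝ) (A B : Finset V) :
    cut x A + cut x B = cut x (A ∩ B) + cut x (A ∪ B) + Q x A B := by
  simp only [cut_eq_ite, Q, ← Finset.sum_add_distrib]
  refine Finset.sum_congr rfl fun u _ => Finset.sum_congr rfl fun v _ => ?_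
  simp only [mem_inter, mem_union, mem_sdiff]
  by_cases h1 : u ∈ A <;> by_cases h2 : u ∈ B <;> by_cases h3 : v ∈ A <;> by_cases h4 : v ∈ B <;>
    simp [h1, h2, h3, h4]

theorem cut_compl' {x : V → V → ℝ} (hx : ∀ u v, x u v = x v u) (S : Finset V) : cut x Sᶜ = cut x S := by
  unfold H31S.cut
  rw [compl_compl, Finset.sum_comm]
  exact Finset.sum_congr rfl fun u _ => Finset.sum_congr rfl fun v _ => hx v u

theorem deg_eq_cut {x : V → V → ℝ} (v : V) (h : x v v = 0) : deg x v = cut x {v} := by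
  unfold H31S.cut H31S.deg
  rw [Finset.sum_singleton, ← Finset.sum_add_sum_compl {v}, Finset.sum_singleton, h, zero_add]

/-- Perturbation in both directions. -/
theorem eventually_frac {x0 y d : V → V → ℝ} (hy : Frac x0 y) (h1 : ∀ u v, d u v = d v u)
    (h2 : ∀ u v, y u v = 0 → d u v = 0) (h3 : ∀ v, deg d v = 0)
    (h4 : ∀ S : Finset V, S.Nonempty → S ≠ univ → H31S.cut y S = 2 → H31S.cut d S = 0) :
    ∀ᶠ ε : ℝ in nhds 0, Frac x0 (fun u v => 1 * y u v + ε * d u v) := by
  have e1 : ∀ᶠ ε : ℝ in nhds 0, ∀ u v, 0 ≤ 1 * y u v + ε * d u v := by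
    rw [Filter.eventually_all]
    intro u
    rw [Filter.eventually_all]
    intro v
    rcases (hy.nn u v).eq_or_lt with h | h
    · refine Filter.Eventually.of_forall fun ε => ?_
      rw [h2 u v h.symm, ← h]
      simp
    · have hc : Filter.Tendsto (fun ε : ℝ => 1 * y u v + ε * d u v) (nhds 0) (nhds (1 * y u v + 0 * d u v)) :=
        (by fun_prop : Continuous fun ε : ℝ => 1 * y u v + ε * d u v).tendsto 0
      have h5 : (0 : ℝ) < 1 * y u v + 0 * d u v := by linarith
      exact (hc.eventually (lt_mem_nhds h5)).mono fun ε h => h.le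
  have e2 : ∀ᶠ ε : ℝ in nhds 0, ∀ S : Finset V, S.Nonempty → S ≠ univ →
      2 ≤ H31S.cut (fun u v => 1 * y u v + ε * d u v) S := by
    rw [Filter.eventually_all]
    intro S
    by_cases hS : S.Nonempty ∧ S ≠ univ
    · rcases (hy.cut S hS.1 hS.2).eq_or_lt with h | h
      · refine Filter.Eventually.of_forall fun ε _ _ => ?_
        rw [cut_comb, h4 S hS.1 hS.2 h.symm, ← h]
        simp
      · have hc : Filter.Tendsto (fun ε : ℝ => 1 * H31S.cut y S + ε * H31S.cut d S) (nhds 0)
            (nhds (1 * H31S.cut y S + 0 * H31S.cut d S)) :=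
          (by fun_prop : Continuous fun ε : ℝ => 1 * H31S.cut y S + ε * H31S.cut d S).tendsto 0
        have h5 : (2 : ℝ) < 1 * H31S.cut y S + 0 * H31S.cut d S := by linarith
        refine (hc.eventually (lt_mem_nhds h5)).mono fun ε h _ _ => ?_
        rw [cut_comb]
        exact h.le
    · refine Filter.Eventually.of_forall fun ε g1 g2 => absurd ⟨g1, g2⟩ hS
  filter_upwards [e1, e2] with ε g1 g2
  refine ⟨?_, g1, ?_, ?_, g2⟩
  · intro u v
    show 1 * y u v + ε * d u v = 1 * y v u + ε * d v u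
    rw [hy.symm u v, h1 u v]
  · intro u v h
    have h5 := hy.supp u v h
    show 1 * y u v + ε * d u v = 0
    rw [h5, h2 u v h5]
    ring
  · intro v
    rw [deg_comb, h3 v, hy.deg v]
    ring

/-- An extreme point has no such direction. -/
theorem extreme_zero {x0 y d : V → V → ℝ} (hy : y ∈ Set.extremePoints ℝ {y | Frac x0 y}) (h1 : ∀ u v, d u v = d v u)
    (h2 : ∀ u v, y u v = 0 → d u v = 0) (h3 : ∀ v, deg d v = 0)
    (h4 : ∀ S : Finset V, S.Nonempty → S ≠ univ → H31S.cut y S = 2 → H31S.cut d S = 0) : ∀ u v, d u v = 0 := by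
  rw [mem_extremePoints] at hy
  obtain ⟨hy1, hy2⟩ := hy
  obtain ⟨δ, hδ, hδ'⟩ := Metric.eventually_nhds_iff.1 (eventually_frac hy1 h1 h2 h3 h4)
  have g1 := hδ' (y := δ / 2) (by rw [Real.dist_eq, sub_zero, abs_of_pos (by linarith)]; linarith)
  have g2 := hδ' (y := -(δ / 2)) (by rw [Real.dist_eq, sub_zero, abs_neg, abs_of_pos (by linarith)]; linarith)
  have g3 := hy2 _ g1 _ g2 (by
    refine ⟨1 / 2, 1 / 2, by norm_num, by norm_num, by norm_num, ?_⟩
    funext u v
    simp only [Pi.add_apply, Pi.smul_apply, smul_eq_mul]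
    ring)
  intro u v
  have g4 : 1 * y u v + δ / 2 * d u v = y u v := congrFun (congrFun g3.1 u) v
  have g5 : δ / 2 * d u v = 0 := by linarith
  rcases mul_eq_zero.1 g5 with h | h
  · linarith
  · exact h

/-- the positive edges -/
noncomputable def pos (y : V → V → ℝ) : Finset (Sym2 V) :=
  (univ.filter (fun p : V × V => y p.1 p.2 ≠ 0)).image (fun p => s(p.1, p.2))

theorem mem_pos {y : V → V → ℝ} (hs : ∀ u v, y u v = y v u) (u v : V) : s(u, v) ∈ pos y ↔ y u v ≠ 0 := by
  unfold pos
  rw [Finset.mem_image]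
  constructor
  · rintro ⟨⟨a, b⟩, h1, h2⟩
    rw [Finset.mem_filter] at h1
    rw [Sym2.eq_iff] at h2
    rcases h2 with ⟨rfl, rfl⟩ | ⟨rfl, rfl⟩
    · exact h1.2
    · rw [hs]
      exact h1.2
  · intro h
    exact ⟨(u, v), Finset.mem_filter.2 ⟨Finset.mem_univ _, h⟩, rfl⟩

/-- the weight with given values on the edges of `P` -/
noncomputable def dL (P : Finset (Sym2 V)) : ({e // e ∈ P} → ℝ) →ₗ[ℝ] (V → V → ℝ) :=
  LinearMap.pi fun u => LinearMap.pi fun v =>
    if h : s(u, v) ∈ P then LinearMap.proj (⟨s(u, v), h⟩ : {e // e ∈ P}) else 0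

theorem dL_apply (P : Finset (Sym2 V)) (c : {e // e ∈ P} → ℝ) (u v : V) :
    dL P c u v = if h : s(u, v) ∈ P then c ⟨s(u, v), h⟩ else 0 := by
  unfold dL
  rw [LinearMap.pi_apply, LinearMap.pi_apply]
  split_ifs <;> rfl

theorem dL_symm (P : Finset (Sym2 V)) (c : {e // e ∈ P} → ℝ) (u v : V) : dL P c u v = dL P c v u := by
  rw [dL_apply, dL_apply]
  have h : s(u, v) = s(v, u) := Sym2.eq_swap
  by_cases h1 : s(u, v) ∈ P
  · have h2 : s(v, u) ∈ P := h ▸ h1
    rw [dif_pos h1, dif_pos h2]
    congr 1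
    exact Subtype.ext h
  · have h2 : s(v, u) ∉ P := h ▸ h1
    rw [dif_neg h1, dif_neg h2]

/-- the cut as a linear map -/
noncomputable def cutL (S : Finset V) : (V → V → ℝ) →ₗ[ℝ] ℝ where
  toFun x := cut x S
  map_add' x y := by
    have h := cut_comb 1 1 x y S
    simp only [one_mul] at h
    exact h
  map_smul' a x := by
    have h := cut_comb a 0 x x S
    simp only [zero_mul, add_zero] at h
    exact h

/-- **Extreme points have at most `2 n - 3` positive edges.** -/
theorem exists_small {x0 : V → V → ℝ} (hx : Frac x0 x0) (hd : ∀ v, x0 v v = 0) (hn : 2 ≤ Fintype.card V) :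
    ∃ y, Frac x0 y ∧ (pos y).card + 3 ≤ 2 * Fintype.card V := by
  classical
  obtain ⟨y, hy⟩ := (compact_frac x0).extremePoints_nonempty ⟨x0, hx⟩
  have hyF : Frac x0 y := hy.1
  refine ⟨y, hyF, ?_⟩
  by_contra hcard
  obtain ⟨r⟩ : Nonempty V := Fintype.card_pos_iff.1 (by omega)
  let F : Finset V → Prop := fun S => S.Nonempty ∧ r ∉ S ∧ cut y S = 2
  let φ : Finset V → Module.Dual ℝ ({e // e ∈ pos y} → ℝ) := fun S => (cutL S).comp (dL (pos y))
  have hφ : ∀ S c, φ S c = cut (dL (pos y) c) S := fun S c => rfl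
  have hzero : ∀ c u v, y u v = 0 → dL (pos y) c u v = 0 := by
    intro c u v h
    rw [dL_apply, dif_neg]
    rw [mem_pos hyF.symm]
    exact fun h' => h' h
  have hF : ∀ A B, F A → F B → (A ∩ B).Nonempty →
      F (A ∩ B) ∧ F (A ∪ B) ∧ φ A + φ B = φ (A ∩ B) + φ (A ∪ B) := by
    rintro A B ⟨a1, a2, a3⟩ ⟨b1, b2, b3⟩ hAB
    have hr1 : r ∉ A ∩ B := fun h => a2 (Finset.mem_inter.1 h).1
    have hr2 : r ∉ A ∪ B := fun h => (Finset.mem_union.1 h).elim a2 b2
    have hc1 := hyF.cut (A ∩ B) hAB (fun h => hr1 (h ▸ Finset.mem_univ r))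
    have hc2 := hyF.cut (A ∪ B) (a1.mono Finset.subset_union_left) (fun h => hr2 (h ▸ Finset.mem_univ r))
    have hid := cut_id y A B
    have hQ : 0 ≤ Q y A B := by
      refine Finset.sum_nonneg fun u _ => Finset.sum_nonneg fun v _ => ?_
      split_ifs
      · exact hyF.nn u v
      · exact le_refl _
    have hQ0 : Q y A B = 0 := by linarith
    have hQz : ∀ u v, ((u ∈ A \ B ∧ v ∈ B \ A) ∨ (u ∈ B \ A ∧ v ∈ A \ B)) → y u v = 0 := by
      intro u v huv
      have h1 := (Finset.sum_eq_zero_iff_of_nonneg (fun u _ => Finset.sum_nonneg fun v _ => by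
        split_ifs
        · exact hyF.nn u v
        · exact le_refl _)).1 hQ0 u (Finset.mem_univ u)
      have h2 := (Finset.sum_eq_zero_iff_of_nonneg (fun v _ => by
        split_ifs
        · exact hyF.nn u v
        · exact le_refl _)).1 h1 v (Finset.mem_univ v)
      rw [if_pos huv] at h2
      exact h2
    refine ⟨⟨hAB, hr1, by linarith⟩, ⟨a1.mono Finset.subset_union_left, hr2, by linarith⟩, ?_⟩
    apply LinearMap.ext
    intro c
    rw [LinearMap.add_apply, LinearMap.add_apply, hφ, hφ, hφ, hφ, cut_id]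
    have h1 : Q (dL (pos y) c) A B = 0 := by
      refine Finset.sum_eq_zero fun u _ => Finset.sum_eq_zero fun v _ => ?_
      split_ifs with h
      · exact hzero c u v (hQz u v h)
      · rfl
    rw [h1, add_zero]
  have hW : (univ.erase r).card = Fintype.card V - 1 := by
    rw [Finset.card_erase_of_mem (Finset.mem_univ r), Finset.card_univ]
  have hWne : (univ.erase r).Nonempty := Finset.card_pos.1 (by omega)
  have hrank := rank_le F φ (fun h => Finset.not_nonempty_empty h.1) hF _ (univ.erase r) rfl hWne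
  set W := Submodule.span ℝ (φ '' {B | F B ∧ B ⊆ univ.erase r}) with hWdef
  have hdim := Subspace.finrank_add_finrank_dualCoannihilator_eq W
  rw [Module.finrank_fintype_fun_eq_card, Fintype.card_coe] at hdim
  have hpos : 0 < Module.finrank ℝ W.dualCoannihilator := by omega
  have hnt : Nontrivial W.dualCoannihilator := Module.finrank_pos_iff.1 hpos
  obtain ⟨⟨c, hc⟩, hc0⟩ := exists_ne (0 : W.dualCoannihilator)
  rw [Submodule.mem_dualCoannihilator] at hc
  have hne : c ≠ 0 := fun h => hc0 (Subtype.ext h)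
  have hcut0 : ∀ S : Finset V, S.Nonempty → r ∉ S → cut y S = 2 → cut (dL (pos y) c) S = 0 := by
    intro S g1 g2 g3
    rw [← hφ]
    refine hc _ (Submodule.subset_span ⟨S, ⟨⟨g1, g2, g3⟩, ?_⟩, rfl⟩)
    intro v hv
    exact Finset.mem_erase.2 ⟨fun h => g2 (h ▸ hv), Finset.mem_univ v⟩
  have hcut : ∀ S : Finset V, S.Nonempty → S ≠ univ → cut y S = 2 → cut (dL (pos y) c) S = 0 := by
    intro S g1 g2 g3
    by_cases g4 : r ∈ S
    · rw [← cut_compl' (dL_symm (pos y) c) S]
      refine hcut0 Sᶜ ?_ (fun h => (Finset.mem_compl.1 h) g4) ?_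
      · rw [Finset.nonempty_iff_ne_empty]
        intro h
        exact g2 ((Finset.compl_eq_empty_iff _).1 h)
      · rw [cut_compl' hyF.symm]
        exact g3
    · exact hcut0 S g1 g4 g3
  have hyd : ∀ v, y v v = 0 := fun v => hyF.supp v v (hd v)
  have hsing : ∀ v : V, ({v} : Finset V) ≠ univ := by
    intro v h
    have h1 := congrArg Finset.card h
    rw [Finset.card_singleton, Finset.card_univ] at h1
    omega
  have hdeg : ∀ v, deg (dL (pos y) c) v = 0 := by
    intro v
    rw [deg_eq_cut v (hzero c v v (hyd v))]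
    refine hcut {v} (Finset.singleton_nonempty v) (hsing v) ?_
    rw [← deg_eq_cut v (hyd v)]
    exact hyF.deg v
  have hz := extreme_zero hy (dL_symm (pos y) c) (hzero c) hdeg hcut
  apply hne
  funext ⟨e, he⟩
  induction e using Sym2.ind with
  | _ u v =>
    have h1 := hz u v
    rw [dL_apply, dif_pos he] at h1
    exact h1

end H95X
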