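import Pool.Agent.Lib.H95X.Ext
import Pool.Agent.Lib.H98P.Defs

/-! # The lemma on extreme points in the form of `H36V.draw_subP` -/

set_option autoImplicit false
set_option linter.unusedSectionVars false

namespace H95X

open Finset H98P

theorem ext_pi {n : ℕ} (hn : 2 ≤ n) : ∀ G : Finset (Sym2 (Fin n)), G ⊆ LW univ → H31S.Pi G univ →
    2 * n ≤ G.card + 3 → ∃ H ⊆ G, H.card = 2 * n - 3 ∧ H31S.Pi H univ := by
  classical
  rintro G hG ⟨x, hx⟩ hc
  have hd : ∀ v, x v v = 0 := by
    intro v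
    refine hx.wt.supp v v fun h => ?_
    have h1 := hG h
    unfold LW at h1
    exact (Finset.mem_filter.1 h1).2 (Sym2.mk_isDiag_iff.2 rfl)
  have hcut : ∀ S : Finset (Fin n), S.Nonempty → S ≠ univ → 2 ≤ H31S.cut x S := by
    intro S h1 h2
    obtain ⟨a, ha⟩ := h1
    obtain ⟨b, hb⟩ : ∃ b, b ∉ S := by
      by_contra hall
      push Not at hall
      exact h2 (Finset.eq_univ_iff_forall.2 hall)
    exact hx.sep S ⟨⟨a, Finset.mem_univ a, ha⟩, b, Finset.mem_univ b, hb⟩
  have hsing : ∀ v : Fin n, ({v} : Finset (Fin n)) ≠ univ := by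
    intro v h
    have h1 := congrArg Finset.card h
    rw [Finset.card_singleton, Finset.card_univ, Fintype.card_fin] at h1
    omega
  have hdeg : ∀ v, H31S.deg x v = 2 := by
    intro v
    have h1 := hcut {v} (Finset.singleton_nonempty v) (hsing v)
    rw [← deg_eq_cut v (hd v)] at h1
    exact le_antisymm (hx.deg_le v) h1
  obtain ⟨y, hy, hyc⟩ := exists_small (x0 := x) ⟨hx.wt.symm, hx.wt.nn, fun u v h => h, hdeg, hcut⟩ hd
    (by rw [Fintype.card_fin]; exact hn)
  rw [Fintype.card_fin] at hyc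
  have hsub : pos y ⊆ G := by
    intro e he
    induction e using Sym2.ind with
    | _ u v =>
      rw [mem_pos hy.symm] at he
      by_contra h
      exact he (hy.supp u v (hx.wt.supp u v h))
  obtain ⟨E, hE1, hE2, hE3⟩ := Finset.exists_subsuperset_card_eq hsub (n := 2 * n - 3) (by omega) (by omega)
  refine ⟨E, hE2, hE3, y, ⟨hy.symm, hy.nn, ?_⟩, fun v => (hy.deg v).le, ?_⟩
  · intro u v h
    by_contra h1
    exact h (hE1 ((mem_pos hy.symm u v).2 h1))
  · rintro S ⟨⟨a, -, ha⟩, b, -, hb⟩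
    exact hy.cut S ⟨a, ha⟩ fun h => hb (h ▸ Finset.mem_univ b)

end H95X
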