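import Pool.Agent.Lib.H95X.Ext

/-! # Fractional Hamiltonian cycles on subgraphs with exactly `2 n - 3` edges -/

set_option autoImplicit false
set_option linter.unusedSectionVars false

namespace H95X

open Finset

/-- A fractional Hamiltonian cycle of the graph `G`. -/
structure FH {n : ℕ} (G : SimpleGraph (Fin n)) (x : Fin n → Fin n → ℝ) : Prop where
  symm : ∀ u v, x u v = x v u
  nonneg : ∀ u v, 0 ≤ x u v
  supp : ∀ u v, ¬ G.Adj u v → x u v = 0
  deg : ∀ v, ∑ w, x v w = 2
  cut : ∀ S : Finset (Fin n), S.Nonempty → S ≠ Finset.univ → 2 ≤ ∑ u ∈ S, ∑ v ∈ Sᶜ, x u v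

/-- A graph with a fractional Hamiltonian cycle and at least `2 n - 3` edges has a subgraph with exactly `2 n - 3` edges
and a fractional Hamiltonian cycle. -/
theorem exact_sub {n : ℕ} (hn : 2 ≤ n) (G : SimpleGraph (Fin n)) (x : Fin n → Fin n → ℝ) (hx : FH G x)
    (hG : 2 * n - 3 ≤ G.edgeSet.ncard) :
    ∃ (H : SimpleGraph (Fin n)) (y : Fin n → Fin n → ℝ), H ≤ G ∧ H.edgeSet.ncard = 2 * n - 3 ∧ FH H y := by
  classical
  obtain ⟨y, hy, hc⟩ := exists_small (x0 := x) ⟨hx.symm, hx.nonneg, fun u v h => h, hx.deg, hx.cut⟩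
    (fun v => hx.supp v v (fun h => G.loopless.irrefl v h)) (by rw [Fintype.card_fin]; exact hn)
  rw [Fintype.card_fin] at hc
  have hsub : pos y ⊆ G.edgeFinset := by
    intro e he
    induction e using Sym2.ind with
    | _ u v =>
      rw [mem_pos hy.symm] at he
      rw [SimpleGraph.mem_edgeFinset, SimpleGraph.mem_edgeSet]
      by_contra h
      exact he (hy.supp u v (hx.supp u v h))
  have hG' : 2 * n - 3 ≤ G.edgeFinset.card := by
    rw [← Set.ncard_coe_finset, SimpleGraph.coe_edgeFinset]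
    exact hG
  obtain ⟨E, hE1, hE2, hE3⟩ := Finset.exists_subsuperset_card_eq hsub (by omega) hG'
  have hadj : ∀ u v, (SimpleGraph.fromEdgeSet (E : Set (Sym2 (Fin n)))).Adj u v ↔ s(u, v) ∈ E := by
    intro u v
    rw [SimpleGraph.fromEdgeSet_adj]
    constructor
    · exact fun h => h.1
    · intro h
      refine ⟨h, ?_⟩
      have h1 := hE2 h
      rw [SimpleGraph.mem_edgeFinset, SimpleGraph.mem_edgeSet] at h1
      exact h1.ne
  refine ⟨SimpleGraph.fromEdgeSet (E : Set (Sym2 (Fin n))), y, ?_, ?_, ⟨hy.symm, hy.nn, ?_, hy.deg, hy.cut⟩⟩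
  · intro u v h
    rw [hadj] at h
    have h1 := hE2 h
    rw [SimpleGraph.mem_edgeFinset, SimpleGraph.mem_edgeSet] at h1
    exact h1
  · have h1 : (SimpleGraph.fromEdgeSet (E : Set (Sym2 (Fin n)))).edgeSet = (E : Set (Sym2 (Fin n))) := by
      ext e
      induction e using Sym2.ind with
      | _ u v =>
        rw [SimpleGraph.mem_edgeSet, hadj]
        rfl
    rw [h1, Set.ncard_coe_finset, hE3]
  · intro u v h
    rw [hadj] at h
    by_contra h1
    exact h (hE1 ((mem_pos hy.symm u v).2 h1))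

/-- Such a graph is connected. -/
theorem FH.connected {n : ℕ} (hn : 1 ≤ n) {G : SimpleGraph (Fin n)} {x : Fin n → Fin n → ℝ} (hx : FH G x) :
    G.Connected := by
  classical
  have hne : Nonempty (Fin n) := ⟨⟨0, hn⟩⟩
  refine ⟨fun a b => ?_⟩
  by_contra hab
  have h1 := hx.cut (univ.filter (fun w => G.Reachable a w))
    ⟨a, Finset.mem_filter.2 ⟨Finset.mem_univ a, SimpleGraph.Reachable.refl a⟩⟩ (by
      intro h
      have h2 : b ∈ univ.filter (fun w => G.Reachable a w) := Finset.eq_univ_iff_forall.1 h b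
      exact hab (Finset.mem_filter.1 h2).2)
  have h2 : ∑ u ∈ univ.filter (fun w => G.Reachable a w), ∑ v ∈ (univ.filter (fun w => G.Reachable a w))ᶜ, x u v = 0 := by
    refine Finset.sum_eq_zero fun u hu => Finset.sum_eq_zero fun v hv => hx.supp u v ?_
    intro h
    rw [Finset.mem_compl, Finset.mem_filter] at hv
    exact hv ⟨Finset.mem_univ v, (Finset.mem_filter.1 hu).2.trans h.reachable⟩
  linarith

/-- Such a graph stays connected when one vertex is removed. -/
theorem FH.connected_del {n : ℕ} (hn : 2 ≤ n) {G : SimpleGraph (Fin n)} {x : Fin n → Fin n → ℝ} (hx : FH G x)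
    (z : Fin n) : (G.induce {w | w ≠ z}).Connected := by
  classical
  have hne : Nonempty {w : Fin n | w ≠ z} := by
    have h1 : 1 < Fintype.card (Fin n) := by rw [Fintype.card_fin]; omega
    obtain ⟨w, hw⟩ := Fintype.exists_ne_of_one_lt_card h1 z
    exact ⟨⟨w, hw⟩⟩
  refine ⟨fun a b => ?_⟩
  by_contra hab
  let S : Finset (Fin n) := univ.filter (fun w => ∃ h : w ≠ z, (G.induce {w | w ≠ z}).Reachable a ⟨w, h⟩)
  let T : Finset (Fin n) := univ.filter (fun w => ∃ h : w ≠ z, ¬ (G.induce {w | w ≠ z}).Reachable a ⟨w, h⟩)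
  have hzS : z ∉ S := fun h => (Finset.mem_filter.1 h).2.1 rfl
  have hzT : z ∉ T := fun h => (Finset.mem_filter.1 h).2.1 rfl
  have hST : ∀ u ∈ S, ∀ v ∈ T, x u v = 0 := by
    intro u hu v hv
    obtain ⟨-, hu1, hu2⟩ := Finset.mem_filter.1 hu
    obtain ⟨-, hv1, hv2⟩ := Finset.mem_filter.1 hv
    refine hx.supp u v fun h => hv2 (hu2.trans ?_)
    exact SimpleGraph.Adj.reachable (G := G.induce {w | w ≠ z}) (u := ⟨u, hu1⟩) (v := ⟨v, hv1⟩) h
  have hall : ∀ w, w = z ∨ w ∈ S ∨ w ∈ T := by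
    intro w
    by_cases h1 : w = z
    · exact Or.inl h1
    · by_cases h2 : (G.induce {w | w ≠ z}).Reachable a ⟨w, h1⟩
      · exact Or.inr (Or.inl (Finset.mem_filter.2 ⟨Finset.mem_univ w, h1, h2⟩))
      · exact Or.inr (Or.inr (Finset.mem_filter.2 ⟨Finset.mem_univ w, h1, h2⟩))
  have hdis : Disjoint S T := by
    rw [Finset.disjoint_left]
    intro w h1 h2
    obtain ⟨-, _, h3⟩ := Finset.mem_filter.1 h1
    obtain ⟨-, _, h4⟩ := Finset.mem_filter.1 h2
    exact h4 h3
  have hS1 := hx.cut S ⟨a.1, Finset.mem_filter.2 ⟨Finset.mem_univ _, a.2, SimpleGraph.Reachable.refl a⟩⟩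
    (fun h => hzS (h ▸ Finset.mem_univ z))
  have hT1 := hx.cut T ⟨b.1, Finset.mem_filter.2 ⟨Finset.mem_univ _, b.2, hab⟩⟩
    (fun h => hzT (h ▸ Finset.mem_univ z))
  have hS2 : ∑ u ∈ S, ∑ v ∈ Sᶜ, x u v = ∑ u ∈ S, x z u := by
    refine Finset.sum_congr rfl fun u hu => ?_
    rw [Finset.sum_eq_single z]
    · exact hx.symm u z
    · intro v hv hvz
      rcases hall v with h | h | h
      · exact absurd h hvz
      · exact absurd h (Finset.mem_compl.1 hv)
      · exact hST u hu v h
    · intro h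
      exact absurd (Finset.mem_compl.2 hzS) h
  have hT2 : ∑ u ∈ T, ∑ v ∈ Tᶜ, x u v = ∑ u ∈ T, x z u := by
    refine Finset.sum_congr rfl fun u hu => ?_
    rw [Finset.sum_eq_single z]
    · exact hx.symm u z
    · intro v hv hvz
      rcases hall v with h | h | h
      · exact absurd h hvz
      · rw [hx.symm u v]
        exact hST v h u hu
      · exact absurd h (Finset.mem_compl.1 hv)
    · intro h
      exact absurd (Finset.mem_compl.2 hzT) h
  have h3 : ∑ u ∈ S, x z u + ∑ u ∈ T, x z u ≤ ∑ w, x z w := by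
    rw [← Finset.sum_union hdis]
    exact Finset.sum_le_sum_of_subset_of_nonneg (Finset.subset_univ _) fun i _ _ => hx.nonneg z i
  have h4 := hx.deg z
  linarith

/-- A graph which is a Hamiltonian cycle has a fractional Hamiltonian cycle (the weights 1). -/
theorem FH.of_cycle {n : ℕ} {F H : SimpleGraph (Fin n)} (hFH : F ≤ H)
    (h2 : ∀ v : Fin n, (F.neighborSet v).ncard = 2)
    (hc : ∃ (v : Fin n) (c : F.Walk v v), c.IsHamiltonianCycle) : ∃ x, FH H x := by
  classical
  have hconn : ∀ a b : Fin n, F.Reachable a b := by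
    obtain ⟨v, c, hc⟩ := hc
    intro a b
    have ha : a ∈ c.support := hc.mem_support a
    have hb : b ∈ c.support := hc.mem_support b
    exact (c.takeUntil a ha).reachable.symm.trans (c.takeUntil b hb).reachable
  have hdeg : ∀ v : Fin n, (univ.filter (fun w => F.Adj v w)).card = 2 := by
    intro v
    rw [← h2 v, ← Set.ncard_coe_finset]
    congr 1
    ext w
    simp
  have hcut : ∀ S : Finset (Fin n), S.Nonempty → S ≠ univ →
      2 ≤ ∑ u ∈ S, ∑ v ∈ Sᶜ, (if F.Adj u v then 1 else 0 : ℕ) := by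
    intro S h1 h3
    have e1 : ∑ u ∈ S, ∑ v, (if F.Adj u v then 1 else 0 : ℕ) = 2 * S.card := by
      have : ∀ u ∈ S, ∑ v, (if F.Adj u v then 1 else 0 : ℕ) = 2 := by
        intro u _
        rw [Finset.sum_boole]
        exact_mod_cast hdeg u
      rw [Finset.sum_congr rfl this, Finset.sum_const, smul_eq_mul, mul_comm]
    have e2 : ∑ u ∈ S, ∑ v, (if F.Adj u v then 1 else 0 : ℕ) =
        ∑ u ∈ S, ∑ v ∈ S, (if F.Adj u v then 1 else 0 : ℕ) + ∑ u ∈ S, ∑ v ∈ Sᶜ, (if F.Adj u v then 1 else 0 : ℕ) := by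
      rw [← Finset.sum_add_distrib]
      exact Finset.sum_congr rfl fun u _ => (Finset.sum_add_sum_compl S _).symm
    have e3 : Even (∑ u ∈ S, ∑ v ∈ S, (if F.Adj u v then 1 else 0 : ℕ)) := by
      rw [← ZMod.natCast_eq_zero_iff_even, ← Finset.sum_product']
      push_cast
      refine Finset.sum_involution (fun p _ => (p.2, p.1)) ?_ ?_ ?_ ?_
      · rintro ⟨u, v⟩ _
        by_cases h : F.Adj u v
        · simp only [h, h.symm, if_true]
          decide
        · have h' : ¬ F.Adj v u := fun h' => h h'.symm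
          simp only [h, h', if_false, add_zero]
      · rintro ⟨u, v⟩ _ h4 h5
        rw [Prod.mk.injEq] at h5
        rw [← h5.1] at h4
        simp at h4
      · rintro ⟨u, v⟩ h4
        rw [Finset.mem_product] at h4 ⊢
        exact ⟨h4.2, h4.1⟩
      · rintro ⟨u, v⟩ _
        rfl
    have e4 : 0 < ∑ u ∈ S, ∑ v ∈ Sᶜ, (if F.Adj u v then 1 else 0 : ℕ) := by
      by_contra hz
      rw [Nat.pos_iff_ne_zero, not_not] at hz
      obtain ⟨a, ha⟩ := h1
      obtain ⟨b, hb⟩ : ∃ b, b ∉ S := by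
        by_contra hall
        push Not at hall
        exact h3 (Finset.eq_univ_iff_forall.2 hall)
      have hno : ∀ u ∈ S, ∀ v, v ∉ S → ¬ F.Adj u v := by
        intro u hu v hv h
        have g1 := (Finset.sum_eq_zero_iff.1 hz) u hu
        have g2 := (Finset.sum_eq_zero_iff.1 g1) v (Finset.mem_compl.2 hv)
        rw [if_pos h] at g2
        exact absurd g2 one_ne_zero
      have hreach : ∀ w, F.Reachable a w → w ∈ S := by
        rintro w ⟨p⟩
        induction p with
        | nil => exact ha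
        | cons h p ih =>
          apply ih
          by_contra hv
          exact hno _ ha _ hv h
      exact hb (hreach b (hconn a b))
    obtain ⟨m, hm⟩ := e3
    omega
  refine ⟨fun u v => if F.Adj u v then 1 else 0, ?_, ?_, ?_, ?_, ?_⟩
  · intro u v
    show (if F.Adj u v then (1 : ℝ) else 0) = if F.Adj v u then 1 else 0
    by_cases h : F.Adj u v
    · rw [if_pos h, if_pos h.symm]
    · rw [if_neg h, if_neg fun h' => h h'.symm]
  · intro u v
    show (0 : ℝ) ≤ if F.Adj u v then 1 else 0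
    split_ifs <;> norm_num
  · intro u v h
    show (if F.Adj u v then (1 : ℝ) else 0) = 0
    rw [if_neg fun h' => h (hFH h')]
  · intro v
    show ∑ w, (if F.Adj v w then (1 : ℝ) else 0) = 2
    rw [Finset.sum_boole, hdeg v]
    norm_num
  · intro S h1 h3
    have h := hcut S h1 h3
    show (2 : ℝ) ≤ ∑ u ∈ S, ∑ v ∈ Sᶜ, if F.Adj u v then (1 : ℝ) else 0
    have h' : ((2 : ℕ) : ℝ) ≤ ((∑ u ∈ S, ∑ v ∈ Sᶜ, (if F.Adj u v then 1 else 0 : ℕ) : ℕ) : ℝ) := by
      exact_mod_cast h
    push_cast at h'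
    exact h'

end H95X
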